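import Mathlib

/-!
# MP_d721eb_al, Q1: a disproof

For every `c` in `(0,2)` there are a primitive stochastic `2 × 2` matrix `W` with left Perron
vector `p > 0` and a positive semidefinite `B` with `B e ≤ ϱ(B) e`, `pᵀ B e > 0` and `ϱ(B) = 1`
such that both `W (I - t B)` and `I - W + (I + t B)⁻¹ (2 W - I)` have spectral radius `> 1` for
every `t` in `(c, 2) = (c, 2/ϱ(B))`.
-/

open Matrix

namespace Pool.Agent.Results.MP_d721eb_al.Unstable

/-- the spectral radius: the largest modulus of a complex eigenvalue -/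
noncomputable def rho {n : ℕ} (M : Matrix (Fin n) (Fin n) ℝ) : ℝ :=
  sSup ((fun z : ℂ => ‖z‖) '' spectrum ℂ (M.map Complex.ofReal))

/-- stochastic: nonnegative entries, row sums one -/
def IsStochastic {n : ℕ} (W : Matrix (Fin n) (Fin n) ℝ) : Prop :=
  (∀ i j, 0 ≤ W i j) ∧ W *ᵥ 1 = 1

/-- primitive: some power has only positive entries -/
def IsPrimitive {n : ℕ} (W : Matrix (Fin n) (Fin n) ℝ) : Prop :=
  ∃ m : ℕ, 1 ≤ m ∧ ∀ i j, 0 < (W ^ m) i j

lemma mem_spec {M : Matrix (Fin 2) (Fin 2) ℝ} {z : ℂ} :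
    z ∈ spectrum ℂ (M.map Complex.ofReal) ↔
      (z - M 0 0) * (z - M 1 1) - M 0 1 * M 1 0 = 0 := by
  rw [spectrum.mem_iff, Matrix.isUnit_iff_isUnit_det, isUnit_iff_ne_zero, not_not,
    Matrix.det_fin_two]
  simp [Matrix.algebraMap_matrix_apply]

lemma bdd (M : Matrix (Fin 2) (Fin 2) ℝ) :
    BddAbove ((fun z : ℂ => ‖z‖) '' spectrum ℂ (M.map Complex.ofReal)) := by
  obtain ⟨T, hT⟩ : ∃ T : ℝ, T = ‖(M 0 0 : ℂ) + M 1 1‖ := ⟨_, rfl⟩
  obtain ⟨D, hD⟩ : ∃ D : ℝ, D = ‖(M 0 0 : ℂ) * M 1 1 - M 0 1 * M 1 0‖ := ⟨_, rfl⟩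
  refine ⟨1 + T + D, ?_⟩
  rintro _ ⟨z, hz, rfl⟩
  rw [mem_spec] at hz
  have h1 : z * z = ((M 0 0 : ℂ) + M 1 1) * z - ((M 0 0 : ℂ) * M 1 1 - M 0 1 * M 1 0) := by
    linear_combination hz
  have h2 : ‖z‖ * ‖z‖ ≤ T * ‖z‖ + D := by
    rw [← norm_mul, h1, hT, hD, ← norm_mul]
    exact norm_sub_le _ _
  have hT0 : 0 ≤ T := hT ▸ norm_nonneg _
  have hD0 : 0 ≤ D := hD ▸ norm_nonneg _
  have hz0 := norm_nonneg z
  change ‖z‖ ≤ _
  by_contra hc
  push Not at hc
  nlinarith [mul_nonneg hT0 hz0, mul_nonneg hD0 hz0]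

/-- a real `2 × 2` matrix with `det (I - M) < 0` has spectral radius greater than one -/
lemma one_lt_rho {M : Matrix (Fin 2) (Fin 2) ℝ} (h : (1 - M).det < 0) : 1 < rho M := by
  rw [Matrix.det_fin_two] at h
  simp at h
  obtain ⟨T, hT⟩ : ∃ T : ℝ, T = M 0 0 + M 1 1 := ⟨_, rfl⟩
  obtain ⟨D, hD⟩ : ∃ D : ℝ, D = M 0 0 * M 1 1 - M 0 1 * M 1 0 := ⟨_, rfl⟩
  have h1 : 1 - T + D < 0 := by rw [hT, hD]; linarith
  have h2 : (2 - T) ^ 2 < T ^ 2 - 4 * D := by nlinarith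
  have h3 : 0 ≤ T ^ 2 - 4 * D := (sq_nonneg _).trans h2.le
  have h4 : 2 - T < Real.sqrt (T ^ 2 - 4 * D) := by
    calc 2 - T ≤ |2 - T| := le_abs_self _
      _ = Real.sqrt ((2 - T) ^ 2) := (Real.sqrt_sq_eq_abs _).symm
      _ < _ := Real.sqrt_lt_sqrt (sq_nonneg _) h2
  obtain ⟨l, hl⟩ : ∃ l : ℝ, l = (T + Real.sqrt (T ^ 2 - 4 * D)) / 2 := ⟨_, rfl⟩
  have hl1 : 1 < l := by rw [hl]; linarith
  have hq : l ^ 2 - T * l + D = 0 := by
    have := Real.sq_sqrt h3
    rw [hl]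
    nlinarith
  have hmem : (l : ℂ) ∈ spectrum ℂ (M.map Complex.ofReal) := by
    rw [mem_spec]
    have : (l - M 0 0) * (l - M 1 1) - M 0 1 * M 1 0 = 0 := by
      rw [hT, hD] at hq
      linarith
    exact_mod_cast this
  have hle : ‖(l : ℂ)‖ ≤ rho M := le_csSup (bdd M) ⟨_, hmem, rfl⟩
  rw [Complex.norm_real, Real.norm_eq_abs, abs_of_pos (by linarith)] at hle
  linarith

/-- **Answer to Q1: no.**  For every `c` in `(0,2)` the hypotheses hold for a `2 × 2` pair with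
`ϱ(B) = 1` for which `P(t)` and `R(t)` are both unstable for all `t` in `(c, 2/ϱ(B))`. -/
theorem result : ∀ c : ℝ, 0 < c → c < 2 →
    ∃ (W B : Matrix (Fin 2) (Fin 2) ℝ) (p : Fin 2 → ℝ),
      IsStochastic W ∧ IsPrimitive W ∧
      (∀ i, 0 < p i) ∧ p ᵥ* W = p ∧ p ⬝ᵥ 1 = 1 ∧
      B.PosSemidef ∧ (∀ i, (B *ᵥ 1) i ≤ rho B) ∧ 0 < p ⬝ᵥ (B *ᵥ 1) ∧ rho B = 1 ∧
      ∀ t : ℝ, c < t → t < 2 →
        1 < rho (W * (1 - t • B)) ∧
        1 < rho (1 - W + (1 + t • B)⁻¹ * ((2 : ℝ) • W - 1)) := by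
  intro c hc0 hc2
  obtain ⟨m, hm⟩ : ∃ m : ℝ, m = 1 / (21 - 5 * c) := ⟨_, rfl⟩
  have hden : 0 < 21 - 5 * c := by linarith
  have hmc : m * (21 - 5 * c) = 1 := by rw [hm]; field_simp
  have hm0 : 0 < m := by rw [hm]; positivity
  have hm1 : m < 1 := by nlinarith
  obtain ⟨B, hB⟩ : ∃ B : Matrix (Fin 2) (Fin 2) ℝ, B =
      !![m + (1 - m) * 9 / 25, -(1 - m) * 12 / 25; -(1 - m) * 12 / 25, m + (1 - m) * 16 / 25] :=
    ⟨_, rfl⟩
  obtain ⟨W, hW⟩ : ∃ W : Matrix (Fin 2) (Fin 2) ℝ, W = !![2 / 3, 1 / 3; 1, 0] := ⟨_, rfl⟩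
  have hspec : ∀ z : ℂ, z ∈ spectrum ℂ (B.map Complex.ofReal) ↔ z = 1 ∨ z = m := by
    intro z
    rw [mem_spec, hB]
    simp only [Matrix.of_apply, Matrix.cons_val', Matrix.cons_val_zero, Matrix.cons_val_one,
      Matrix.cons_val_fin_one]
    push_cast
    constructor
    · intro h
      have : (z - 1) * (z - m) = 0 := by linear_combination h
      rcases mul_eq_zero.1 this with h | h
      · left; linear_combination h
      · right; linear_combination h
    · rintro (rfl | rfl) <;> ring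
  have hrho : rho B = 1 := by
    unfold rho
    have : spectrum ℂ (B.map Complex.ofReal) = {1, (m : ℂ)} := by
      ext z; rw [hspec]; simp
    rw [this, Set.image_pair, csSup_pair]
    simp [Complex.norm_real, abs_of_pos hm0, hm1.le]
  refine ⟨W, B, ![3 / 4, 1 / 4], ⟨?_, ?_⟩, ⟨2, by norm_num, ?_⟩, ?_, ?_, ?_, ?_, ?_, ?_, hrho, ?_⟩
  · intro i j
    rw [hW]
    fin_cases i <;> fin_cases j <;> norm_num
  · rw [hW]
    ext i
    fin_cases i <;> simp [Matrix.mulVec, dotProduct, Fin.sum_univ_two] <;> norm_num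
  · intro i j
    rw [hW, pow_two]
    fin_cases i <;> fin_cases j <;> simp [Matrix.mul_apply, Fin.sum_univ_two] <;> norm_num
  · intro i
    fin_cases i <;> norm_num
  · rw [hW]
    ext i
    fin_cases i <;> simp [Matrix.vecMul, dotProduct, Fin.sum_univ_two] <;> norm_num
  · simp [dotProduct, Fin.sum_univ_two]; norm_num
  · refine Matrix.PosSemidef.of_dotProduct_mulVec_nonneg ?_ ?_
    · rw [hB]
      ext i j
      fin_cases i <;> fin_cases j <;> simp [Matrix.conjTranspose_apply]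
    · intro x
      rw [hB]
      simp [dotProduct, Matrix.mulVec, Fin.sum_univ_two]
      have h1 : 0 ≤ (1 - m) * (3 / 5 * x 0 - 4 / 5 * x 1) ^ 2 :=
        mul_nonneg (by linarith) (sq_nonneg _)
      have h2 : 0 ≤ m * (x 0 ^ 2 + x 1 ^ 2) := by positivity
      nlinarith
  · intro i
    rw [hrho, hB]
    fin_cases i <;> simp [Matrix.mulVec, dotProduct, Fin.sum_univ_two] <;> nlinarith
  · rw [hB]
    simp [Matrix.mulVec, dotProduct, Fin.sum_univ_two]
    nlinarith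
  · intro t ht1 ht2
    have ht0 : 0 < t := hc0.trans ht1
    have key : t * m * (c - t) / 3 < 0 := by
      have : 0 < t * m * (t - c) := mul_pos (mul_pos ht0 hm0) (by linarith)
      linarith
    have w00 : W 0 0 = 2 / 3 := by rw [hW]; rfl
    have w01 : W 0 1 = 1 / 3 := by rw [hW]; rfl
    have w10 : W 1 0 = 1 := by rw [hW]; rfl
    have w11 : W 1 1 = 0 := by rw [hW]; rfl
    have b00 : B 0 0 = m + (1 - m) * 9 / 25 := by rw [hB]; rfl
    have b01 : B 0 1 = -(1 - m) * 12 / 25 := by rw [hB]; rfl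
    have b10 : B 1 0 = -(1 - m) * 12 / 25 := by rw [hB]; rfl
    have b11 : B 1 1 = m + (1 - m) * 16 / 25 := by rw [hB]; rfl
    have o01 : (1 : Matrix (Fin 2) (Fin 2) ℝ) 0 1 = 0 := rfl
    have o10 : (1 : Matrix (Fin 2) (Fin 2) ℝ) 1 0 = 0 := rfl
    refine ⟨one_lt_rho ?_, one_lt_rho ?_⟩
    · have : (1 - W * (1 - t • B)).det = t * m * (c - t) / 3 := by
        rw [Matrix.det_fin_two]
        simp only [Matrix.sub_apply, Matrix.mul_apply, Fin.sum_univ_two, Matrix.smul_apply,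
          Matrix.one_apply_eq, o01, o10, w00, w01, w10, w11, b00, b01, b10, b11, smul_eq_mul]
        linear_combination (t / 15) * hmc
      rw [this]; exact key
    · have hdet : (1 + t • B).det = (1 + t) * (1 + t * m) := by
        rw [hB, Matrix.det_fin_two]
        simp
        ring
      have hpos : 0 < (1 + t • B).det := by rw [hdet]; positivity
      have hunit : IsUnit (1 + t • B).det := isUnit_iff_ne_zero.2 hpos.ne'
      have hfac : 1 - (1 - W + (1 + t • B)⁻¹ * ((2 : ℝ) • W - 1)) =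
          (1 + t • B)⁻¹ * ((1 + t • B) * W - ((2 : ℝ) • W - 1)) := by
        rw [mul_sub ((1 + t • B)⁻¹) ((1 + t • B) * W), ← mul_assoc,
          Matrix.nonsing_inv_mul _ hunit, one_mul]
        abel
      rw [hfac, Matrix.det_mul, Matrix.det_nonsing_inv, Ring.inverse_eq_inv']
      have h2 : ((1 + t • B) * W - ((2 : ℝ) • W - 1)).det = t * m * (c - t) / 3 := by
        rw [Matrix.det_fin_two]
        simp only [Matrix.sub_apply, Matrix.add_apply, Matrix.mul_apply, Fin.sum_univ_two,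
          Matrix.smul_apply, Matrix.one_apply_eq, o01, o10, w00, w01, w10, w11, b00, b01, b10, b11,
          smul_eq_mul]
        linear_combination (t / 15) * hmc
      rw [h2]
      exact mul_neg_of_pos_of_neg (inv_pos.2 hpos) key

end Pool.Agent.Results.MP_d721eb_al.Unstable
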